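import Pool.Agent.H361R2.PP.Iface5

/-!
Project PP, task PP-EXT: extraction of consecutive primes from `GoodS`.
-/

set_option autoImplicit false

open Finset

namespace Pool.Agent.H804R2.PP

open Pool.Agent.H361R2.PP

theorem P_mono : StrictMono P := Nat.nth_strictMono Nat.infinite_setOfPred_prime

theorem P_prime (j : ℕ) : (P j).Prime := Nat.prime_nth_prime j

/-- EXT -/
theorem ext : Ext := by
  classical
  intro k m α ε Λ X n hε hΛ hX hXn hα hG
  obtain ⟨h1, h2, h3⟩ := hG
  set N := ⌊Λ * Real.log X⌋₊ with hN
  have hX' : (2:ℝ) ≤ X := by exact_mod_cast hX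
  have hL : 0 < Real.log X := Real.log_pos (by linarith)
  have hΛL : 0 ≤ Λ * Real.log X := by positivity
  -- the clusters with exactly one prime
  set A : Fin k → Finset ℕ := fun i => (Icc 1 N).filter (fun a =>
    CL (α i) ε (Real.log X) a ∧ (n + a).Prime) with hA
  set T : Finset ℕ := (Icc 1 N).filter (fun a => (n + a).Prime) with hT
  have hdis : ∀ i j : Fin k, i < j → ∀ a ∈ A i, ∀ b ∈ A j, a < b := by
    intro i j hij a ha b hb
    rw [hA] at ha hb
    simp only [mem_filter] at ha hb
    have h4 := ha.2.1.2
    have h5 := hb.2.1.1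
    have h6 := mul_le_mul_of_nonneg_right (hα i j hij) hL.le
    have : (a:ℝ) < b := by linarith
    exact_mod_cast this
  have hcard : m + 1 ≤ T.card := by
    refine h1.trans ?_
    set I := (univ : Finset (Fin k)).filter (fun i => 1 = (A i).card) with hI
    have hex : ∀ i ∈ I, ∃ a, a ∈ A i := by
      intro i hi
      rw [hI, mem_filter] at hi
      have : 0 < (A i).card := by omega
      exact card_pos.1 this
    choose! e he using hex
    refine card_le_card_of_injOn e ?_ ?_
    · intro i hi
      have h4 := he i hi
      rw [hA] at h4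
      simp only [mem_filter] at h4
      rw [hT, mem_coe, mem_filter]
      exact ⟨h4.1, h4.2.2⟩
    · intro i hi j hj hij
      rcases lt_trichotomy i j with h | h | h
      · have := hdis i j h _ (he i hi) _ (he j hj)
        omega
      · exact h
      · have := hdis j i h _ (he j hj) _ (he i hi)
        omega
  -- counting primes
  set j := Nat.count Nat.Prime (n + 1) with hj
  have hcount : j + (m + 1) ≤ Nat.count Nat.Prime (n + N + 1) := by
    have ecount : ∀ M, Nat.count Nat.Prime M = ((range M).filter Nat.Prime).card := by
      intro M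
      rw [Nat.count_eq_card_filter_range]
    rw [hj, ecount, ecount]
    have h4 : (T.image (fun a => n + a)).card = T.card :=
      card_image_of_injective _ (fun a b hab => by simpa using hab)
    have h5 : Disjoint ((range (n + 1)).filter Nat.Prime) (T.image (fun a => n + a)) := by
      rw [disjoint_left]
      intro x hx hx'
      rw [mem_filter, mem_range] at hx
      rw [mem_image] at hx'
      obtain ⟨a, ha, rfl⟩ := hx'
      rw [hT, mem_filter, mem_Icc] at ha
      omega
    have h6 : ((range (n + 1)).filter Nat.Prime) ∪ (T.image (fun a => n + a)) ⊆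
        (range (n + N + 1)).filter Nat.Prime := by
      intro x hx
      rw [mem_union, mem_filter, mem_range, mem_image] at hx
      rw [mem_filter, mem_range]
      rcases hx with hx | ⟨a, ha, rfl⟩
      · exact ⟨by omega, hx.2⟩
      · rw [hT, mem_filter, mem_Icc] at ha
        exact ⟨by omega, ha.2⟩
    have h7 := card_le_card h6
    rw [card_union_of_disjoint h5, h4] at h7
    omega
  have hlow : ∀ i, n + 1 ≤ P (j + i) := by
    intro i
    have h4 : n + 1 ≤ P j := Nat.le_nth_count Nat.infinite_setOfPred_prime (n + 1)
    exact h4.trans (P_mono.monotone (Nat.le_add_right _ _))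
  have hup : ∀ i ≤ m, P (j + i) ≤ n + N := by
    intro i hi
    have : P (j + i) < n + N + 1 := Nat.nth_lt_of_lt_count (by omega)
    omega
  -- shifts
  set a : ℕ → ℕ := fun i => P (j + min i m) - n with ha
  have ha1 : ∀ i, P (j + min i m) = n + a i := by
    intro i
    have := hlow (min i m)
    simp only [ha]
    omega
  have ha2 : ∀ i, a i ∈ Icc 1 N := by
    intro i
    have h4 := hlow (min i m)
    have h5 := hup (min i m) (min_le_right _ _)
    rw [mem_Icc]
    simp only [ha]
    omega
  have ha3 : ∀ i, (n + a i).Prime := by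
    intro i
    rw [← ha1]
    exact P_prime _
  have hex : ∀ i, ∃ c : Fin k, CL (α c) ε (Real.log X) (a i) := fun i => h3 _ (ha2 i) (ha3 i)
  choose c hc using hex
  have hmem : ∀ i, a i ∈ A (c i) := by
    intro i
    rw [hA]
    simp only [mem_filter]
    exact ⟨ha2 i, hc i, ha3 i⟩
  refine ⟨j, a, c, ?_, ?_, ?_⟩
  · intro i hi
    have h4 := ha1 i
    rw [min_eq_left hi] at h4
    have h5 := ha2 i
    rw [mem_Icc] at h5
    refine ⟨h4, h5.1, ?_, hc i⟩
    calc (a i : ℝ) ≤ N := by exact_mod_cast h5.2
      _ ≤ Λ * Real.log X := Nat.floor_le hΛL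
  · intro i hi
    have hlt : a i < a (i + 1) := by
      have h4 := ha1 i
      have h5 := ha1 (i + 1)
      rw [min_eq_left (by omega)] at h4 h5
      have h6 : P (j + i) < P (j + (i + 1)) := P_mono (by omega)
      omega
    rcases lt_trichotomy (c i) (c (i + 1)) with h | h | h
    · exact h
    · exfalso
      have h4 := hmem i
      have h5 := hmem (i + 1)
      rw [← h] at h5
      have h6 := h2 (c i)
      have h7 : (A (c i)).card ≤ 1 := h6
      rw [card_le_one] at h7
      have := h7 _ h4 _ h5
      omega
    · exfalso
      have := hdis _ _ h _ (hmem (i + 1)) _ (hmem i)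
      omega
  · intro j' hj'
    have : P j' < n + 1 := Nat.nth_lt_of_lt_count hj'
    omega

end Pool.Agent.H804R2.PP
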